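import Mathlib

/-! Sums of `s` positive `k`-th powers, and the set given by diminishing ranges. -/

set_option autoImplicit false

namespace Pool.Agent.X114.WR

open Finset Filter Topology

/-- `n` is a sum of `s` `k`-th powers of positive integers. -/
def Rep (k s n : ℕ) : Prop := ∃ x : Fin s → ℕ, (∀ i, 0 < x i) ∧ ∑ i, x i ^ k = n

theorem Rep.add {k s t a b : ℕ} (h1 : Rep k s a) (h2 : Rep k t b) : Rep k (s + t) (a + b) := by
  obtain ⟨x, hx, hx'⟩ := h1
  obtain ⟨y, hy, hy'⟩ := h2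
  refine ⟨Fin.append x y, fun i => ?_, ?_⟩
  · refine Fin.addCases (fun i => ?_) (fun i => ?_) i
    · rw [Fin.append_left]; exact hx i
    · rw [Fin.append_right]; exact hy i
  · rw [Fin.sum_univ_add]
    simp only [Fin.append_left, Fin.append_right]
    rw [hx', hy']

theorem Rep.one {k x : ℕ} (hx : 0 < x) : Rep k 1 (x ^ k) :=
  ⟨fun _ => x, fun _ => hx, by simp⟩

theorem Rep.zero (k : ℕ) : Rep k 0 0 := ⟨fun i => i.elim0, fun i => i.elim0, by simp⟩

/-- the largest `X` with `(2 X) ^ k ≤ N / 2`, roughly -/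
theorem exists_root (k : ℕ) (hk : 1 ≤ k) : ∃ N0 : ℕ, ∀ N : ℕ, N0 ≤ N →
    ∃ X : ℕ, 2 * (2 * X) ^ k ≤ N ∧ (N : ℝ) ^ (1 / (k : ℝ)) / 8 ≤ X := by
  have hk0 : (0 : ℝ) < k := by exact_mod_cast hk
  refine ⟨8 ^ k, fun N hN => ⟨⌊(N : ℝ) ^ (1 / (k : ℝ)) / 4⌋₊, ?_, ?_⟩⟩
  · set X := ⌊(N : ℝ) ^ (1 / (k : ℝ)) / 4⌋₊ with hX
    have h1 : (X : ℝ) ≤ (N : ℝ) ^ (1 / (k : ℝ)) / 4 := Nat.floor_le (by positivity)
    have h2 : (2 * (X : ℝ)) ^ k ≤ ((N : ℝ) ^ (1 / (k : ℝ)) / 2) ^ k := by
      apply pow_le_pow_left₀ (by positivity); linarith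
    have h3 : ((N : ℝ) ^ (1 / (k : ℝ)) / 2) ^ k = N / 2 ^ k := by
      rw [div_pow, ← Real.rpow_natCast ((N : ℝ) ^ (1 / (k : ℝ))) k, ← Real.rpow_mul (by positivity),
        one_div_mul_cancel hk0.ne', Real.rpow_one]
    have h4 : (2 : ℝ) * (2 * X) ^ k ≤ N := by
      rw [h3] at h2
      have h5 : (2 : ℝ) ≤ 2 ^ k := by
        calc (2 : ℝ) = 2 ^ 1 := by norm_num
          _ ≤ 2 ^ k := pow_le_pow_right₀ (by norm_num) hk
      have h6 : (N : ℝ) / 2 ^ k ≤ N / 2 := by
        apply div_le_div_of_nonneg_left (by positivity) (by norm_num) h5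
      linarith
    exact_mod_cast h4
  · have h1 : (8 : ℝ) ≤ (N : ℝ) ^ (1 / (k : ℝ)) := by
      have h2 : ((8 : ℝ) ^ k) ^ (1 / (k : ℝ)) ≤ (N : ℝ) ^ (1 / (k : ℝ)) := by
        apply Real.rpow_le_rpow (by positivity) _ (by positivity)
        exact_mod_cast hN
      rwa [← Real.rpow_natCast (8 : ℝ) k, ← Real.rpow_mul (by norm_num), mul_one_div_cancel hk0.ne',
        Real.rpow_one] at h2
    have h2 := Nat.lt_floor_add_one ((N : ℝ) ^ (1 / (k : ℝ)) / 4)
    linarith

theorem dim_ranges (k : ℕ) (hk : 2 ≤ k) (s : ℕ) : ∃ c : ℝ, 0 < c ∧ ∃ N0 : ℕ, ∀ N : ℕ, N0 ≤ N →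
    ∃ S : Finset ℕ, (∀ a ∈ S, a ≤ N ∧ Rep k s a) ∧
      c * (N : ℝ) ^ (1 - (1 - 1 / (k : ℝ)) ^ s) ≤ S.card := by
  have hk0 : (0 : ℝ) < k := by exact_mod_cast (by omega : 0 < k)
  have hk2 : (2 : ℝ) ≤ k := by exact_mod_cast hk
  induction s with
  | zero =>
    refine ⟨1, one_pos, 0, fun N _ => ⟨{0}, ?_, ?_⟩⟩
    · intro a ha
      rw [mem_singleton.mp ha]
      exact ⟨Nat.zero_le _, Rep.zero k⟩
    · simp
  | succ s ih =>
    obtain ⟨c, hc, N0, H⟩ := ih
    obtain ⟨N1, H1⟩ := exists_root k (by omega)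
    set μ : ℝ := (1 - 1 / (k : ℝ)) ^ s with hμ
    have hb0 : (0 : ℝ) ≤ 1 - 1 / (k : ℝ) := by
      rw [sub_nonneg, div_le_one hk0]; linarith
    have hb1 : 1 - 1 / (k : ℝ) ≤ 1 := by
      have : (0 : ℝ) ≤ 1 / k := by positivity
      linarith
    have hμ0 : 0 ≤ μ := pow_nonneg hb0 _
    have hμ1 : μ ≤ 1 := pow_le_one₀ hb0 hb1
    -- exponent identity
    set e : ℝ := 1 + ((k : ℝ) - 1) * (1 - μ) with he
    have he0 : 0 ≤ e := by
      rw [he]
      have : 0 ≤ ((k : ℝ) - 1) * (1 - μ) := mul_nonneg (by linarith) (by linarith)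
      linarith
    have hee : e / k = 1 - (1 - 1 / (k : ℝ)) ^ (s + 1) := by
      rw [pow_succ, ← hμ, he]
      field_simp
      ring
    refine ⟨c * (1 / 8) ^ e, by positivity, max N1 ((8 * (N0 + 1)) ^ k), fun N hN => ?_⟩
    obtain ⟨X, hX1, hX2⟩ := H1 N (le_trans (le_max_left _ _) hN)
    have hXbig : N0 + 1 ≤ X := by
      have h1 : ((8 * ((N0 : ℝ) + 1)) ^ k) ^ (1 / (k : ℝ)) ≤ (N : ℝ) ^ (1 / (k : ℝ)) := by
        apply Real.rpow_le_rpow (by positivity) _ (by positivity)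
        exact_mod_cast le_trans (le_max_right _ _) hN
      rw [← Real.rpow_natCast (8 * ((N0 : ℝ) + 1)) k, ← Real.rpow_mul (by positivity),
        mul_one_div_cancel hk0.ne', Real.rpow_one] at h1
      have : ((N0 : ℝ) + 1) ≤ X := by linarith
      exact_mod_cast this
    have hX0 : 0 < X := by omega
    obtain ⟨S, hS, hSc⟩ := H (X ^ (k - 1)) (by
      calc N0 ≤ X := by omega
        _ = X ^ 1 := (pow_one _).symm
        _ ≤ X ^ (k - 1) := Nat.pow_le_pow_right hX0 (by omega))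
    have hinj : Set.InjOn (fun p : ℕ × ℕ => p.1 ^ k + p.2) ((Ioc X (2 * X)) ×ˢ S : Finset (ℕ × ℕ)) := by
      have key : ∀ x x' y y' : ℕ, X < x → y ≤ X ^ (k - 1) → x < x' → x ^ k + y ≠ x' ^ k + y' := by
        intro x x' y y' hx hy hxx heq
        have h1 : x ^ k + x ^ (k - 1) ≤ x' ^ k := by
          calc x ^ k + x ^ (k - 1) = (x + 1) * x ^ (k - 1) := by
                rw [add_mul, one_mul]
                congr 1
                conv_lhs => rw [show k = (k - 1) + 1 by omega]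
                rw [pow_succ, mul_comm]
            _ ≤ (x + 1) * (x + 1) ^ (k - 1) :=
                Nat.mul_le_mul_left _ (Nat.pow_le_pow_left (by omega) _)
            _ = (x + 1) ^ k := by
                conv_rhs => rw [show k = (k - 1) + 1 by omega]
                rw [pow_succ, mul_comm]
            _ ≤ x' ^ k := Nat.pow_le_pow_left hxx _
        have h2 : X ^ (k - 1) < x ^ (k - 1) := Nat.pow_lt_pow_left hx (by omega)
        omega
      rintro ⟨x, y⟩ hp ⟨x', y'⟩ hp' heq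
      rw [mem_coe, mem_product, mem_Ioc] at hp hp'
      have hy := (hS y hp.2).1
      have hy' := (hS y' hp'.2).1
      simp only at heq
      rcases lt_trichotomy x x' with h | h | h
      · exact absurd heq (key x x' y y' hp.1.1 hy h)
      · subst h
        have : y = y' := by omega
        rw [this]
      · exact absurd heq.symm (key x' x y' y hp'.1.1 hy' h)
    refine ⟨((Ioc X (2 * X)) ×ˢ S).image (fun p => p.1 ^ k + p.2), ?_, ?_⟩
    · intro a ha
      obtain ⟨⟨x, y⟩, hp, rfl⟩ := mem_image.mp ha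
      rw [mem_product, mem_Ioc] at hp
      have hy := hS y hp.2
      refine ⟨?_, ?_⟩
      · have h1 : x ^ k ≤ (2 * X) ^ k := Nat.pow_le_pow_left hp.1.2 _
        have h2 : X ^ (k - 1) ≤ (2 * X) ^ k := by
          calc X ^ (k - 1) ≤ (2 * X) ^ (k - 1) := Nat.pow_le_pow_left (by omega) _
            _ ≤ (2 * X) ^ k := Nat.pow_le_pow_right (by omega) (by omega)
        have h3 := hy.1
        simp only
        omega
      · have := hy.2.add (Rep.one (k := k) (x := x) (by omega : 0 < x))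
        rw [add_comm y] at this
        exact this
    · rw [card_image_of_injOn hinj, card_product, Nat.card_Ioc]
      have h1 : 2 * X - X = X := by omega
      rw [h1]
      push_cast
      have hXr : (0 : ℝ) < X := by exact_mod_cast hX0
      have h2 : ((X ^ (k - 1) : ℕ) : ℝ) ^ (1 - μ) = (X : ℝ) ^ (((k : ℝ) - 1) * (1 - μ)) := by
        push_cast
        rw [← Real.rpow_natCast (X : ℝ) (k - 1), ← Real.rpow_mul hXr.le]
        congr 2
        rw [Nat.cast_sub (by omega)]; simp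
      rw [h2] at hSc
      calc c * (1 / 8) ^ e * (N : ℝ) ^ (1 - (1 - 1 / (k : ℝ)) ^ (s + 1))
          = c * ((N : ℝ) ^ (1 / (k : ℝ)) / 8) ^ e := by
            rw [← hee, div_eq_mul_one_div ((N : ℝ) ^ (1 / (k : ℝ))) 8,
              Real.mul_rpow (by positivity) (by norm_num), ← Real.rpow_mul (by positivity)]
            rw [show 1 / (k : ℝ) * e = e / k by ring]
            ring
        _ ≤ c * (X : ℝ) ^ e := by
            apply mul_le_mul_of_nonneg_left _ hc.le
            exact Real.rpow_le_rpow (by positivity) hX2 he0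
        _ = X * (c * (X : ℝ) ^ (((k : ℝ) - 1) * (1 - μ))) := by
            rw [he, Real.rpow_add hXr, Real.rpow_one]; ring
        _ ≤ X * (S.card : ℝ) := mul_le_mul_of_nonneg_left hSc hXr.le

end Pool.Agent.X114.WR
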