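import Pool.Agent.X114.WR.Mod

/-! Sums of `2 s + 1` `k`-th powers in all the classes modulo almost all the moduli without small
prime factors. -/

set_option autoImplicit false

namespace Pool.Agent.X114.WR

open Finset Filter Topology
open Pool.Agent.H373R2.NB
open Pool.Agent.Helper602.MK (ee)
open Pool.Agent.X114.PD

theorem rough_divisors (Y L d : ℕ) (hd : 0 < d) (hY : 0 < Y) (hdY : d < Y ^ (L + 1)) (G : Finset ℕ)
    (hG : ∀ q ∈ G, q ∣ d ∧ ∀ p, p.Prime → p ∣ q → Y < p) : G.card ≤ 2 ^ L := by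
  classical
  set m : Multiset ℕ := ((d.primeFactorsList : Multiset ℕ).filter (fun p => Y < p)) with hm
  have hmd : m.prod ∣ d := by
    have h1 : m ≤ (d.primeFactorsList : Multiset ℕ) := Multiset.filter_le _ _
    have h2 := Multiset.prod_dvd_prod_of_le h1
    rwa [Multiset.prod_coe, Nat.prod_primeFactorsList hd.ne'] at h2
  have hcard : Multiset.card m ≤ L := by
    by_contra h
    push Not at h
    have h1 : Y ^ (Multiset.card m) ≤ m.prod := by
      apply Multiset.pow_card_le_prod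
      intro x hx
      exact (Multiset.mem_filter.mp hx).2.le
    have h2 : Y ^ (L + 1) ≤ Y ^ (Multiset.card m) := Nat.pow_le_pow_right hY h
    have h3 := Nat.le_of_dvd hd hmd
    omega
  calc G.card ≤ (m.powerset.toFinset).card := by
        apply card_le_card_of_injOn (fun q => (q.primeFactorsList : Multiset ℕ))
        · intro q hq
          obtain ⟨h1, h2⟩ := hG q hq
          rw [mem_coe, Multiset.mem_toFinset, Multiset.mem_powerset, hm]
          rw [Multiset.le_filter]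
          refine ⟨?_, ?_⟩
          · exact Multiset.coe_le.mpr (Nat.primeFactorsList_sublist_of_dvd h1 hd.ne').subperm
          · intro a ha
            rw [Multiset.mem_coe] at ha
            exact h2 a (Nat.prime_of_mem_primeFactorsList ha) (Nat.dvd_of_mem_primeFactorsList ha)
        · intro q hq q' hq' heq
          have h1 : q ≠ 0 := by rintro rfl; exact hd.ne' (Nat.eq_zero_of_zero_dvd (hG 0 hq).1)
          have h2 : q' ≠ 0 := by rintro rfl; exact hd.ne' (Nat.eq_zero_of_zero_dvd (hG 0 hq').1)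
          simp only at heq
          rw [← Nat.prod_primeFactorsList h1, ← Nat.prod_primeFactorsList h2, ← Multiset.prod_coe,
            ← Multiset.prod_coe, heq]
    _ ≤ Multiset.card m.powerset := Multiset.toFinset_card_le _
    _ = 2 ^ Multiset.card m := Multiset.card_powerset _
    _ ≤ 2 ^ L := Nat.pow_le_pow_right (by norm_num) hcard

theorem weyl_small (k : ℕ) (hk : 1 ≤ k) : ∃ C M : ℕ, 1 ≤ C ∧ ∀ (P q b : ℕ) (u : ℝ), 0 < P → 1 ≤ u →
    0 < q → (∀ r : ℕ, 1 ≤ r → (r : ℝ) ≤ C * u ^ M → ¬ q ∣ r * k.factorial * b) →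
    (C : ℝ) * u ^ M / (P : ℝ) ^ k < 1 / q →
    ‖∑ x ∈ Ioc 0 P, ee ((b : ℝ) * (((x : ℝ) ^ k) / q))‖ ≤ P / u := by
  obtain ⟨C, M, hC, H⟩ := IW_Ioc hk
  refine ⟨C, M, hC, fun P q b u hP hu hq hr hlt => ?_⟩
  by_contra hcon
  push Not at hcon
  have hu0 : 0 < u := by linarith
  have hq0 : (0 : ℝ) < q := by exact_mod_cast hq
  have hφ : Ph k ((b : ℝ) / q * (k.factorial : ℝ)) (fun n => (b : ℝ) / q * (n : ℝ) ^ k) :=
    Ph_smul k _ _ _ (Ph_pow k)
  have h1 : (fun n : ℕ => (b : ℝ) / q * (n : ℝ) ^ k) = fun n : ℕ => (b : ℝ) * (((n : ℝ) ^ k) / q) := by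
    funext n; ring
  rw [h1] at hφ
  obtain ⟨r, hr1, hr2, m, hm⟩ := H 0 P u _ _ hP hu hφ (by
    rw [Nat.sub_zero]
    rw [div_lt_iff₀ hu0] at hcon
    linarith)
  rw [Nat.sub_zero] at hm
  have h2 : (1 : ℝ) / q ≤ |r * ((b : ℝ) / q * (k.factorial : ℝ)) - m| := by
    have h3 : (r : ℝ) * ((b : ℝ) / q * (k.factorial : ℝ)) - m =
        (((r * k.factorial * b : ℕ) : ℤ) - m * q : ℤ) / (q : ℝ) := by
      push_cast; field_simp
    rw [h3, abs_div, abs_of_pos hq0]
    apply div_le_div_of_nonneg_right _ hq0.le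
    have h4 : (((r * k.factorial * b : ℕ) : ℤ) - m * q : ℤ) ≠ 0 := by
      intro h5
      apply hr r hr1 hr2
      have : ((q : ℕ) : ℤ) ∣ ((r * k.factorial * b : ℕ) : ℤ) := ⟨m, by linarith⟩
      exact_mod_cast this
    rw [← Int.cast_abs]
    exact_mod_cast Int.one_le_abs h4
  linarith

/-- collisions on average -/
theorem sum_col (S G : Finset ℕ) (N Y L : ℕ) (hY : 0 < Y) (hN : N < Y ^ (L + 1))
    (hS : ∀ a ∈ S, a ≤ N) (hG : ∀ q ∈ G, ∀ p, p.Prime → p ∣ q → Y < p) :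
    ∑ q ∈ G, col S q ≤ G.card * S.card + S.card ^ 2 * 2 ^ L := by
  classical
  have h1 : ∑ q ∈ G, col S q = ∑ p ∈ S ×ˢ S, (G.filter (fun q : ℕ => (q : ℤ) ∣ (p.1 : ℤ) - p.2)).card := by
    unfold col
    simp_rw [card_filter]
    exact sum_comm
  rw [h1, ← sum_filter_add_sum_filter_not (S ×ˢ S) (fun p => p.1 = p.2)]
  apply add_le_add
  · calc _ ≤ ∑ p ∈ (S ×ˢ S).filter (fun p => p.1 = p.2), G.card :=
          sum_le_sum fun p _ => card_le_card (filter_subset _ _)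
      _ = ((S ×ˢ S).filter (fun p => p.1 = p.2)).card * G.card := by rw [sum_const, smul_eq_mul]
      _ ≤ S.card * G.card := by
          apply Nat.mul_le_mul_right
          apply card_le_card_of_injOn (fun p => p.1)
          · intro p hp
            rw [mem_coe, mem_filter, mem_product] at hp
            exact hp.1.1
          · intro p hp p' hp' heq
            rw [mem_coe, mem_filter] at hp hp'
            simp only at heq
            exact Prod.ext heq (by rw [← hp.2, ← hp'.2, heq])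
      _ = _ := mul_comm _ _
  · calc _ ≤ ∑ p ∈ (S ×ˢ S).filter (fun p => ¬ p.1 = p.2), 2 ^ L := by
          refine sum_le_sum fun p hp => ?_
          rw [mem_filter, mem_product] at hp
          have hp1 := hS _ hp.1.1
          have hp2 := hS _ hp.1.2
          apply rough_divisors Y L (((p.1 : ℤ) - p.2).natAbs)
          · have := hp.2; omega
          · exact hY
          · have : ((p.1 : ℤ) - p.2).natAbs ≤ N := by omega
            omega
          · intro q hq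
            rw [mem_filter] at hq
            exact ⟨Int.natCast_dvd.mp hq.2, hG q hq.1⟩
      _ = ((S ×ˢ S).filter (fun p => ¬ p.1 = p.2)).card * 2 ^ L := by rw [sum_const, smul_eq_mul]
      _ ≤ S.card ^ 2 * 2 ^ L := by
          apply Nat.mul_le_mul_right
          refine (card_le_card (filter_subset _ _)).trans ?_
          rw [card_product, sq]

theorem evt {a : ℝ} (ha : 0 < a) (K : ℝ) : ∀ᶠ Q : ℕ in atTop, K ≤ (Q : ℝ) ^ a :=
  ((tendsto_rpow_atTop ha).comp tendsto_natCast_atTop_atTop).eventually_ge_atTop K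

/-- every class modulo `q` contains a sum of `t` `k`-th powers which is at most `q ^ c` -/
def Covered (k t : ℕ) (c : ℝ) (q : ℕ) : Prop :=
  ∀ n : ℕ, ∃ m : ℕ, m ≡ n [MOD q] ∧ (m : ℝ) ≤ (q : ℝ) ^ c ∧ Rep k t m

theorem main (k s : ℕ) (hk : 2 ≤ k) (c δ : ℝ) (hδ : 0 < δ)
    (hc : 1 < c * (1 - (1 - 1 / (k : ℝ)) ^ s)) :
    ∃ σ : ℝ, 0 < σ ∧ ∀ᶠ Q : ℕ in atTop, ∀ G : Finset ℕ, (∀ q ∈ G, Q < q ∧ q ≤ 2 * Q ∧
      (∀ p : ℕ, p.Prime → p ∣ q → (Q : ℝ) ^ δ < p) ∧ ¬ Covered k (2 * s + 1) c q) →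
      (G.card : ℝ) ≤ (Q : ℝ) ^ (1 - σ) := by
  have hk0 : (0 : ℝ) < k := by exact_mod_cast (by omega : 0 < k)
  have hk2 : (2 : ℝ) ≤ k := by exact_mod_cast hk
  have hb0 : (0 : ℝ) ≤ 1 - 1 / (k : ℝ) := by
    rw [sub_nonneg, div_le_one hk0]; linarith
  have hμ0 : 0 ≤ (1 - 1 / (k : ℝ)) ^ s := pow_nonneg hb0 _
  have hμ1 : (1 - 1 / (k : ℝ)) ^ s ≤ 1 := pow_le_one₀ hb0 (by
    have : (0 : ℝ) ≤ 1 / k := by positivity
    linarith)
  set θ : ℝ := 1 - (1 - 1 / (k : ℝ)) ^ s with hθ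
  have hθ0 : 0 ≤ θ := by linarith
  have hθ1 : θ ≤ 1 := by linarith
  have hc1 : 1 < c := by
    by_contra h
    push Not at h
    have : c * θ ≤ 1 * 1 := by
      rcases le_or_gt 0 c with h0 | h0
      · exact mul_le_mul h hθ1 hθ0 (by norm_num)
      · have := mul_nonneg (neg_nonneg.mpr h0.le) hθ0
        linarith
    linarith
  obtain ⟨c0, hc0, N0, HD⟩ := dim_ranges k hk s
  obtain ⟨C, M, hC, HW⟩ := weyl_small k (by omega)
  set τ : ℝ := min δ (c - 1) with hτ
  have hτ0 : 0 < τ := lt_min hδ (by linarith)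
  set η : ℝ := τ / (2 * (M + 1)) with hη
  have hη0 : 0 < η := by positivity
  have hηM : η * M ≤ τ / 2 := by
    rw [hη, div_mul_eq_mul_div, div_le_div_iff₀ (by positivity) (by norm_num)]
    nlinarith
  set L : ℕ := ⌈c / δ⌉₊ with hL
  have hLδ : c + δ ≤ δ * ((L : ℝ) + 1) := by
    have h1 := Nat.le_ceil (c / δ)
    rw [div_le_iff₀ hδ] at h1
    rw [← hL] at h1
    linarith
  refine ⟨η / 2, by positivity, ?_⟩
  -- the finitely many conditions on `Q`
  have E1 := evt (a := c) (by linarith) (3 * ((N0 : ℝ) + 2) * 2 ^ k)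
  have E2 := evt (a := c * θ - 1) (by linarith) (6 ^ θ / c0)
  have E3 := evt (a := τ / 2) (by positivity) ((C : ℝ) * k.factorial + 1)
  have E4 := evt (a := τ / 2) (by positivity) ((C : ℝ) * 6 * 2 ^ k * 2 + 1)
  have E5 := evt (a := δ) hδ (2 ^ (L + 1) + 1)
  have E6 := evt (a := η / 2) (by positivity) (2 * (1 + 2 ^ L))
  filter_upwards [E1, E2, E3, E4, E5, E6, eventually_ge_atTop 1] with Q h1 h2 h3 h4 h5 h6 hQ G hG
  have hQ1 : (1 : ℝ) ≤ Q := by exact_mod_cast hQ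
  have hQ0 : (0 : ℝ) < Q := by linarith
  set N : ℕ := ⌊(Q : ℝ) ^ c / 3⌋₊ with hN
  have hN1 : (N : ℝ) ≤ (Q : ℝ) ^ c / 3 := Nat.floor_le (by positivity)
  have hN2 : (Q : ℝ) ^ c / 6 ≤ N := by
    have h7 := Nat.lt_floor_add_one ((Q : ℝ) ^ c / 3)
    rw [← hN] at h7
    have h8 : (6 : ℝ) ≤ (Q : ℝ) ^ c := by
      refine le_trans ?_ h1
      have : (1 : ℝ) ≤ 2 ^ k := one_le_pow₀ (by norm_num)
      have h9 : (0 : ℝ) ≤ N0 := by positivity
      nlinarith
    linarith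
  have hNN0 : N0 ≤ N := by
    have h7 := Nat.lt_floor_add_one ((Q : ℝ) ^ c / 3)
    rw [← hN] at h7
    have : (1 : ℝ) ≤ 2 ^ k := one_le_pow₀ (by norm_num)
    have h9 : (0 : ℝ) ≤ N0 := by positivity
    have h10 : ((N0 : ℝ) + 2) ≤ (N : ℝ) + 1 := by nlinarith
    have : (N0 : ℝ) ≤ N := by linarith
    exact_mod_cast this
  obtain ⟨S, hS, hSc⟩ := HD N hNN0
  rw [← hθ] at hSc
  -- the size of `S`
  have hSQ : (Q : ℝ) ≤ S.card := by
    refine le_trans ?_ hSc
    calc (Q : ℝ) = Q ^ (1 : ℝ) := (Real.rpow_one _).symm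
      _ ≤ c0 / 6 ^ θ * (Q : ℝ) ^ (c * θ) := by
          have h7 : (Q : ℝ) ^ (c * θ) = (Q : ℝ) ^ (1 : ℝ) * (Q : ℝ) ^ (c * θ - 1) := by
            rw [← Real.rpow_add hQ0]; congr 1; ring
          rw [h7]
          have h8 : 1 ≤ c0 / 6 ^ θ * (Q : ℝ) ^ (c * θ - 1) := by
            calc (1 : ℝ) = c0 / 6 ^ θ * (6 ^ θ / c0) := by
                  have : (6 : ℝ) ^ θ ≠ 0 := by positivity
                  field_simp
              _ ≤ _ := mul_le_mul_of_nonneg_left h2 (by positivity)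
          have h9 : 0 ≤ (Q : ℝ) ^ (1 : ℝ) := by positivity
          calc (Q : ℝ) ^ (1 : ℝ) = (Q : ℝ) ^ (1 : ℝ) * 1 := (mul_one _).symm
            _ ≤ (Q : ℝ) ^ (1 : ℝ) * (c0 / 6 ^ θ * (Q : ℝ) ^ (c * θ - 1)) :=
                mul_le_mul_of_nonneg_left h8 h9
            _ = _ := by ring
      _ = c0 * ((Q : ℝ) ^ c / 6) ^ θ := by
          rw [Real.div_rpow (by positivity) (by norm_num), ← Real.rpow_mul hQ0.le]; ring
      _ ≤ c0 * (N : ℝ) ^ θ := by
          apply mul_le_mul_of_nonneg_left _ hc0.le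
          exact Real.rpow_le_rpow (by positivity) hN2 hθ0
  have hS1 : (1 : ℝ) ≤ S.card := hQ1.trans hSQ
  -- the range of `x`
  set P : ℕ := ⌊(N : ℝ) ^ (1 / (k : ℝ))⌋₊ with hP
  have hroot : ((N : ℝ) ^ (1 / (k : ℝ))) ^ k = N := by
    rw [← Real.rpow_natCast ((N : ℝ) ^ (1 / (k : ℝ))) k, ← Real.rpow_mul (by positivity),
      one_div_mul_cancel hk0.ne', Real.rpow_one]
  have hP1 : (P : ℝ) ^ k ≤ N := by
    calc (P : ℝ) ^ k ≤ ((N : ℝ) ^ (1 / (k : ℝ))) ^ k :=
          pow_le_pow_left₀ (by positivity) (Nat.floor_le (by positivity)) _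
      _ = N := hroot
  have hN3 : (1 : ℝ) ≤ N := by
    have : (1 : ℝ) ≤ 2 ^ k := one_le_pow₀ (by norm_num)
    have h9 : (0 : ℝ) ≤ N0 := by positivity
    nlinarith
  have hP2 : (N : ℝ) ^ (1 / (k : ℝ)) / 2 ≤ P := by
    have h7 := Nat.lt_floor_add_one ((N : ℝ) ^ (1 / (k : ℝ)))
    rw [← hP] at h7
    have h8 : (1 : ℝ) ≤ (N : ℝ) ^ (1 / (k : ℝ)) := Real.one_le_rpow hN3 (by positivity)
    have h9 : (1 : ℝ) ≤ P := by
      have : 1 ≤ P := by rw [hP]; exact Nat.le_floor (by exact_mod_cast h8)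
      exact_mod_cast this
    linarith
  have hP0 : 0 < P := by
    have h8 : (1 : ℝ) ≤ (N : ℝ) ^ (1 / (k : ℝ)) := Real.one_le_rpow hN3 (by positivity)
    have : (0 : ℝ) < P := by linarith
    exact_mod_cast this
  have hPr : (0 : ℝ) < P := by exact_mod_cast hP0
  have hP3 : (Q : ℝ) ^ c / (6 * 2 ^ k) ≤ (P : ℝ) ^ k := by
    calc (Q : ℝ) ^ c / (6 * 2 ^ k) ≤ N / 2 ^ k := by
          rw [← div_div]; exact div_le_div_of_nonneg_right hN2 (by positivity)
      _ = ((N : ℝ) ^ (1 / (k : ℝ)) / 2) ^ k := by rw [div_pow, hroot]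
      _ ≤ (P : ℝ) ^ k := pow_le_pow_left₀ (by positivity) hP2 _
  set u : ℝ := (Q : ℝ) ^ η with hu
  have hu1 : 1 ≤ u := Real.one_le_rpow hQ1 hη0.le
  have huM : u ^ M ≤ (Q : ℝ) ^ (τ / 2) := by
    rw [hu, ← Real.rpow_natCast, ← Real.rpow_mul hQ0.le]
    exact Real.rpow_le_rpow_of_exponent_le hQ1 hηM
  have hττ : (Q : ℝ) ^ (τ / 2) * (Q : ℝ) ^ (τ / 2) = (Q : ℝ) ^ τ := by
    rw [← Real.rpow_add hQ0]; congr 1; ring
  have hτδ : (Q : ℝ) ^ τ ≤ (Q : ℝ) ^ δ := Real.rpow_le_rpow_of_exponent_le hQ1 (min_le_left _ _)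
  have hτc : (Q : ℝ) ^ τ ≤ (Q : ℝ) ^ (c - 1) := Real.rpow_le_rpow_of_exponent_le hQ1 (min_le_right _ _)
  have hQτ : (0 : ℝ) < (Q : ℝ) ^ (τ / 2) := by positivity
  have hCr : (1 : ℝ) ≤ C := by exact_mod_cast hC
  -- a modulus of `G` has many collisions
  have hcol : ∀ q ∈ G, u * (S.card : ℝ) ^ 2 / (2 * Q) ≤ col S q := by
    intro q hq
    obtain ⟨hq1, hq2, hq3, hq4⟩ := hG q hq
    have hq0 : 0 < q := by omega
    have hqr : (0 : ℝ) < q := by exact_mod_cast hq0
    have hqQ : (q : ℝ) ≤ 2 * Q := by exact_mod_cast hq2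
    have hB : ∀ b ∈ range q, b ≠ 0 → ‖∑ x ∈ Ioc 0 P, ee ((b : ℝ) * (((x : ℝ) ^ k) / q))‖ ≤ P / u := by
      intro b hb hb0
      rw [mem_range] at hb
      apply HW P q b u hP0 hu1 hq0
      · intro r hr1 hr2 hdvd
        by_cases hcop : q.Coprime (r * k.factorial)
        · have := Nat.le_of_dvd (by omega) (hcop.dvd_of_dvd_mul_left hdvd)
          omega
        · obtain ⟨p, hp, hpq, hpr⟩ := Nat.Prime.not_coprime_iff_dvd.mp hcop
          have h7 := hq3 p hp hpq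
          have h8 : p ≤ r * k.factorial := Nat.le_of_dvd (Nat.mul_pos (by omega) (Nat.factorial_pos k)) hpr
          have h9 : (p : ℝ) ≤ r * k.factorial := by exact_mod_cast h8
          have h10 : (r : ℝ) * k.factorial ≤ C * (Q : ℝ) ^ (τ / 2) * k.factorial := by
            apply mul_le_mul_of_nonneg_right _ (by positivity)
            exact hr2.trans (mul_le_mul_of_nonneg_left huM (by positivity))
          have h11 : (C : ℝ) * (Q : ℝ) ^ (τ / 2) * k.factorial ≤ (Q : ℝ) ^ τ := by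
            rw [← hττ]
            nlinarith
          linarith
      · rw [div_lt_div_iff₀ (by positivity) hqr]
        have h7 : (C : ℝ) * u ^ M * q ≤ C * (Q : ℝ) ^ (τ / 2) * (2 * Q) := by
          apply mul_le_mul _ hqQ (by positivity) (by positivity)
          exact mul_le_mul_of_nonneg_left huM (by positivity)
        have h8 : C * (Q : ℝ) ^ (τ / 2) * (2 * Q) < 1 * (P : ℝ) ^ k := by
          rw [one_mul]
          refine lt_of_lt_of_le ?_ hP3
          rw [lt_div_iff₀ (by positivity)]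
          have h9 : (Q : ℝ) ^ c = (Q : ℝ) ^ (c - 1) * Q := by
            rw [Real.rpow_sub_one hQ0.ne']; field_simp
          rw [h9]
          have h10 : C * (Q : ℝ) ^ (τ / 2) * 2 * (6 * 2 ^ k) < (Q : ℝ) ^ (c - 1) := by
            refine lt_of_lt_of_le ?_ hτc
            rw [← hττ]
            nlinarith
          nlinarith
        linarith
    by_contra hcon
    push Not at hcon
    apply hq4
    intro n
    have hlt : P / u * (q * (col S q : ℝ)) < (S.card : ℝ) ^ 2 * P := by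
      rw [lt_div_iff₀ (by positivity)] at hcon
      have h7 : (q : ℝ) * col S q ≤ 2 * Q * col S q := mul_le_mul_of_nonneg_right hqQ (by positivity)
      have h8 : (q : ℝ) * col S q < u * (S.card : ℝ) ^ 2 := by linarith
      calc P / u * (q * (col S q : ℝ)) < P / u * (u * (S.card : ℝ) ^ 2) :=
            mul_lt_mul_of_pos_left h8 (by positivity)
        _ = (S.card : ℝ) ^ 2 * P := by field_simp
    obtain ⟨a, ha, a', ha', x, hx, hmod⟩ := covers k S P q hq0 (P / u) (by positivity) hB hlt n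
    rw [mem_Ioc] at hx
    refine ⟨a + a' + x ^ k, hmod, ?_, ?_⟩
    · have h7 : (a : ℝ) ≤ N := by exact_mod_cast (hS a ha).1
      have h8 : (a' : ℝ) ≤ N := by exact_mod_cast (hS a' ha').1
      have h9 : (x : ℝ) ^ k ≤ N := by
        refine le_trans ?_ hP1
        exact pow_le_pow_left₀ (by positivity) (by exact_mod_cast hx.2) _
      have h10 : (Q : ℝ) ^ c ≤ (q : ℝ) ^ c := by
        apply Real.rpow_le_rpow hQ0.le _ (by linarith)
        exact_mod_cast hq1.le
      push_cast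
      linarith
    · have h7 := ((hS a ha).2.add (hS a' ha').2).add (Rep.one (k := k) hx.1)
      rwa [← two_mul] at h7
  -- conclusion
  set Y : ℕ := ⌊(Q : ℝ) ^ δ⌋₊ with hY
  have hY1 : (Y : ℝ) ≤ (Q : ℝ) ^ δ := Nat.floor_le (by positivity)
  have hYδ : (1 : ℝ) ≤ (Q : ℝ) ^ δ := Real.one_le_rpow hQ1 hδ.le
  have hY2 : (Q : ℝ) ^ δ / 2 ≤ Y := by
    have h7 := Nat.lt_floor_add_one ((Q : ℝ) ^ δ)
    rw [← hY] at h7
    have h9 : (1 : ℝ) ≤ Y := by
      have : 1 ≤ Y := by rw [hY]; exact Nat.le_floor (by exact_mod_cast hYδ)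
      exact_mod_cast this
    linarith
  have hY0 : 0 < Y := by
    have : (0 : ℝ) < Y := by linarith
    exact_mod_cast this
  have hNY : N < Y ^ (L + 1) := by
    have h7 : (N : ℝ) < (Y : ℝ) ^ (L + 1) := by
      calc (N : ℝ) ≤ (Q : ℝ) ^ c / 3 := hN1
        _ < (Q : ℝ) ^ c := by
            have : (0 : ℝ) < (Q : ℝ) ^ c := by positivity
            linarith
        _ ≤ ((Q : ℝ) ^ δ / 2) ^ (L + 1) := by
            rw [div_pow, le_div_iff₀ (by positivity), ← Real.rpow_natCast ((Q : ℝ) ^ δ) (L + 1),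
              ← Real.rpow_mul hQ0.le]
            calc (Q : ℝ) ^ c * 2 ^ (L + 1) ≤ (Q : ℝ) ^ c * (Q : ℝ) ^ δ :=
                  mul_le_mul_of_nonneg_left (by linarith) (by positivity)
              _ = (Q : ℝ) ^ (c + δ) := (Real.rpow_add hQ0 _ _).symm
              _ ≤ (Q : ℝ) ^ (δ * ((L + 1 : ℕ) : ℝ)) :=
                  Real.rpow_le_rpow_of_exponent_le hQ1 (by push_cast; exact hLδ)
        _ ≤ (Y : ℝ) ^ (L + 1) := pow_le_pow_left₀ (by positivity) hY2 _
    exact_mod_cast h7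
  have hsum := sum_col S G N Y L hY0 hNY (fun a ha => (hS a ha).1) (fun q hq p hp hpq => by
    have h7 := (hG q hq).2.2.1 p hp hpq
    have : (Y : ℝ) < p := lt_of_le_of_lt hY1 h7
    exact_mod_cast this)
  have hsumr : ∑ q ∈ G, (col S q : ℝ) ≤ G.card * S.card + (S.card : ℝ) ^ 2 * 2 ^ L := by
    exact_mod_cast hsum
  have hGQ : (G.card : ℝ) ≤ Q := by
    have h7 : G.card ≤ (Ioc Q (2 * Q)).card := card_le_card fun q hq => by
      rw [mem_Ioc]; exact ⟨(hG q hq).1, (hG q hq).2.1⟩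
    rw [Nat.card_Ioc] at h7
    have : G.card ≤ Q := by omega
    exact_mod_cast this
  have h7 : (G.card : ℝ) * (u * (S.card : ℝ) ^ 2 / (2 * Q)) ≤ G.card * S.card + (S.card : ℝ) ^ 2 * 2 ^ L := by
    refine le_trans ?_ hsumr
    rw [← nsmul_eq_mul, ← sum_const]
    exact sum_le_sum hcol
  have h8 : (G.card : ℝ) * (u * (S.card : ℝ) ^ 2 / (2 * Q)) ≤ (S.card : ℝ) ^ 2 * (1 + 2 ^ L) := by
    refine h7.trans ?_
    have : (G.card : ℝ) * S.card ≤ (S.card : ℝ) * S.card :=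
      mul_le_mul_of_nonneg_right (hGQ.trans hSQ) (by positivity)
    nlinarith
  have hSpos : (0 : ℝ) < (S.card : ℝ) ^ 2 := by positivity
  have h9 : (G.card : ℝ) * u ≤ 2 * Q * (1 + 2 ^ L) := by
    have h10 : (G.card : ℝ) * (u * (S.card : ℝ) ^ 2 / (2 * Q)) =
        (S.card : ℝ) ^ 2 * (G.card * u / (2 * Q)) := by ring
    rw [h10] at h8
    have h11 := le_of_mul_le_mul_left h8 hSpos
    rw [div_le_iff₀ (by positivity)] at h11
    linarith
  have h10 : (Q : ℝ) ^ (1 - η / 2) * u = Q * (Q : ℝ) ^ (η / 2) := by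
    rw [hu, ← Real.rpow_add hQ0]
    conv_rhs => rw [show (Q : ℝ) * (Q : ℝ) ^ (η / 2) = (Q : ℝ) ^ (1 : ℝ) * (Q : ℝ) ^ (η / 2) by rw [Real.rpow_one]]
    rw [← Real.rpow_add hQ0]
    congr 1; ring
  have hu0 : 0 < u := by linarith
  refine le_of_mul_le_mul_right ?_ hu0
  rw [h10]
  refine h9.trans ?_
  nlinarith

end Pool.Agent.X114.WR
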