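import Pool.Agent.X114.PD.Ph
import Pool.Agent.X114.WR.Dim

/-! Sums of `k`-th powers in residue classes: finite Fourier analysis. -/

set_option autoImplicit false

namespace Pool.Agent.X114.WR

open Finset Filter Topology
open Pool.Agent.H373R2.NB
open Pool.Agent.Helper602.MK (ee)
open Pool.Agent.Helper602.MK.N_J5b (ee_add ee_zero ee_conj norm_ee ee_int ee_nat_mul ee_eq_one_iff)
open Pool.Agent.X114.PD

theorem orth (q : ℕ) (hq : 0 < q) (m : ℤ) :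
    ∑ b ∈ range q, ee ((b : ℝ) * (m / q)) = if (q : ℤ) ∣ m then (q : ℂ) else 0 := by
  have hq0 : (q : ℝ) ≠ 0 := by exact_mod_cast hq.ne'
  simp_rw [ee_nat_mul]
  split_ifs with h
  · obtain ⟨t, rfl⟩ := h
    have : ee (((q : ℤ) * t : ℤ) / (q : ℝ)) = 1 := by
      rw [show (((q : ℤ) * t : ℤ) : ℝ) / (q : ℝ) = (t : ℤ) by push_cast; field_simp]
      exact ee_int t
    rw [this]; simp
  · have h1 : ee ((m : ℝ) / q) ≠ 1 := by
      intro h1
      obtain ⟨n, hn⟩ := (ee_eq_one_iff _).mp h1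
      apply h
      refine ⟨n, ?_⟩
      rw [div_eq_iff hq0] at hn
      have : (m : ℝ) = ((q * n : ℤ) : ℝ) := by push_cast; linarith
      exact_mod_cast this
    rw [geom_sum_eq h1]
    have h2 : ee ((m : ℝ) / q) ^ q = 1 := by
      rw [← ee_nat_mul, show (q : ℝ) * (m / q) = (m : ℤ) by field_simp]
      exact ee_int m
    rw [h2, sub_self, zero_div]

/-- the number of collisions modulo `q` -/
noncomputable def col (S : Finset ℕ) (q : ℕ) : ℕ :=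
  ((S ×ˢ S).filter (fun p => (q : ℤ) ∣ (p.1 : ℤ) - p.2)).card

/-- the mean square of the sums -/
theorem mean_sq (S : Finset ℕ) (q : ℕ) (hq : 0 < q) :
    ∑ b ∈ range q, ‖∑ a ∈ S, ee ((b : ℝ) * (a / q))‖ ^ 2 = q * col S q := by
  have h1 : ∀ b ∈ range q, ((‖∑ a ∈ S, ee ((b : ℝ) * (a / q))‖ ^ 2 : ℝ) : ℂ) =
      ∑ p ∈ S ×ˢ S, ee ((b : ℝ) * (((p.1 : ℤ) - p.2 : ℤ) / q)) := by
    intro b _
    rw [← Complex.normSq_eq_norm_sq, Complex.normSq_eq_conj_mul_self, mul_comm, map_sum,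
      sum_mul_sum, ← sum_product']
    refine sum_congr rfl fun p _ => ?_
    rw [ee_conj, ← ee_add]
    congr 1; push_cast; ring
  have h2 : ((∑ b ∈ range q, ‖∑ a ∈ S, ee ((b : ℝ) * (a / q))‖ ^ 2 : ℝ) : ℂ) = ((q * col S q : ℝ) : ℂ) := by
    push_cast
    rw [show (∑ b ∈ range q, ((‖∑ a ∈ S, ee ((b : ℝ) * (a / q))‖ : ℂ)) ^ 2) =
      ∑ b ∈ range q, ∑ p ∈ S ×ˢ S, ee ((b : ℝ) * (((p.1 : ℤ) - p.2 : ℤ) / q)) from
      sum_congr rfl fun b hb => by rw [← h1 b hb]; push_cast; rfl]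
    rw [sum_comm]
    simp_rw [orth q hq]
    rw [← sum_filter, sum_const, nsmul_eq_mul, mul_comm, col]
  exact_mod_cast h2

/-- If the trigonometric sums of `x ↦ x ^ k` are small at all the non-zero frequencies, and there are
few collisions, every class modulo `q` contains `a + a' + x ^ k`. -/
theorem covers (k : ℕ) (S : Finset ℕ) (P q : ℕ) (hq : 0 < q) (B : ℝ) (hB0 : 0 ≤ B)
    (hB : ∀ b ∈ range q, b ≠ 0 → ‖∑ x ∈ Ioc 0 P, ee ((b : ℝ) * (((x : ℝ) ^ k) / q))‖ ≤ B)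
    (hlt : B * (q * col S q) < (S.card : ℝ) ^ 2 * P) (n : ℕ) :
    ∃ a ∈ S, ∃ a' ∈ S, ∃ x ∈ Ioc 0 P, a + a' + x ^ k ≡ n [MOD q] := by
  by_contra hcon
  push Not at hcon
  set A : ℕ → ℂ := fun b => ∑ a ∈ S, ee ((b : ℝ) * (a / q)) with hA
  set F : ℕ → ℂ := fun b => ∑ x ∈ Ioc 0 P, ee ((b : ℝ) * (((x : ℝ) ^ k) / q)) with hF
  have h0 : ∑ b ∈ range q, A b * A b * F b * ee ((b : ℝ) * (-(n : ℝ) / q)) = 0 := by
    have h1 : ∀ b ∈ range q, A b * A b * F b * ee ((b : ℝ) * (-(n : ℝ) / q)) =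
        ∑ a ∈ S, ∑ a' ∈ S, ∑ x ∈ Ioc 0 P, ee ((b : ℝ) * (((a : ℤ) + a' + (x : ℤ) ^ k - n : ℤ) / q)) := by
      intro b _
      have e1 : ∀ a ∈ S, ∀ a' ∈ S, ∀ x ∈ Ioc 0 P,
          ee ((b : ℝ) * (((a : ℤ) + a' + (x : ℤ) ^ k - n : ℤ) / q)) =
          ee ((b : ℝ) * (a / q)) * (ee ((b : ℝ) * (a' / q)) * (ee ((b : ℝ) * (((x : ℝ) ^ k) / q)) *
            ee ((b : ℝ) * (-(n : ℝ) / q)))) := by
        intro a _ a' _ x _
        rw [← ee_add, ← ee_add, ← ee_add]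
        congr 1; push_cast; ring
      rw [sum_congr rfl fun a ha => sum_congr rfl fun a' ha' => sum_congr rfl fun x hx => e1 a ha a' ha' x hx]
      simp_rw [← mul_sum, ← sum_mul]
      rw [hA, hF]
      ring
    rw [sum_congr rfl h1, sum_comm]
    refine sum_eq_zero fun a ha => ?_
    rw [sum_comm]
    refine sum_eq_zero fun a' ha' => ?_
    rw [sum_comm]
    refine sum_eq_zero fun x hx => ?_
    rw [orth q hq, if_neg]
    intro hd
    apply hcon a ha a' ha' x hx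
    rw [← Int.natCast_modEq_iff]
    push_cast
    exact (Int.modEq_iff_dvd.mpr (by
      have : (n : ℤ) - ((a : ℤ) + a' + (x : ℤ) ^ k) = -((a : ℤ) + a' + (x : ℤ) ^ k - n) := by ring
      rw [this]; exact (dvd_neg.mpr hd)))
  have h2 : A 0 * A 0 * F 0 * ee (((0 : ℕ) : ℝ) * (-(n : ℝ) / q)) = ((S.card : ℝ) ^ 2 * P : ℝ) := by
    have e1 : A 0 = S.card := by rw [hA]; simp [ee_zero]
    have e2 : F 0 = P := by rw [hF]; simp [ee_zero]
    rw [e1, e2, Nat.cast_zero, zero_mul, ee_zero]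
    push_cast; ring
  obtain ⟨r, rfl⟩ : ∃ r, q = r + 1 := ⟨q - 1, by omega⟩
  rw [sum_range_succ', h2] at h0
  have h3 : ‖∑ b ∈ range r, A (b + 1) * A (b + 1) * F (b + 1) *
      ee (((b + 1 : ℕ) : ℝ) * (-(n : ℝ) / ((r + 1 : ℕ) : ℝ)))‖ ≤ B * ((r + 1 : ℕ) * col S (r + 1)) := by
    calc _ ≤ ∑ b ∈ range r, ‖A (b + 1) * A (b + 1) * F (b + 1) *
            ee (((b + 1 : ℕ) : ℝ) * (-(n : ℝ) / ((r + 1 : ℕ) : ℝ)))‖ := norm_sum_le _ _
      _ ≤ ∑ b ∈ range r, B * ‖A (b + 1)‖ ^ 2 := by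
          refine sum_le_sum fun b hb => ?_
          rw [norm_mul, norm_mul, norm_mul, norm_ee, mul_one]
          have := hB (b + 1) (by rw [mem_range] at hb ⊢; omega) (by omega)
          calc ‖A (b + 1)‖ * ‖A (b + 1)‖ * ‖F (b + 1)‖ ≤ ‖A (b + 1)‖ * ‖A (b + 1)‖ * B :=
                mul_le_mul_of_nonneg_left this (by positivity)
            _ = _ := by ring
      _ ≤ ∑ b ∈ range (r + 1), B * ‖A b‖ ^ 2 := by
          rw [sum_range_succ' (fun b => B * ‖A b‖ ^ 2)]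
          have : 0 ≤ B * ‖A 0‖ ^ 2 := by positivity
          linarith
      _ = _ := by rw [← mul_sum, mean_sq S (r + 1) hq]
  have h4 : ((S.card : ℝ) ^ 2 * P) ≤ B * ((r + 1 : ℕ) * col S (r + 1)) := by
    have h5 : (((S.card : ℝ) ^ 2 * P : ℝ) : ℂ) = -∑ b ∈ range r, A (b + 1) * A (b + 1) * F (b + 1) *
      ee (((b + 1 : ℕ) : ℝ) * (-(n : ℝ) / ((r + 1 : ℕ) : ℝ))) := by
      rw [← sub_eq_zero, sub_neg_eq_add, add_comm]; exact h0
    have h6 : ‖(((S.card : ℝ) ^ 2 * P : ℝ) : ℂ)‖ = (S.card : ℝ) ^ 2 * P := by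
      rw [Complex.norm_real, Real.norm_of_nonneg (by positivity)]
    rw [← h6, h5, norm_neg]
    exact h3
  linarith

end Pool.Agent.X114.WR
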